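import Mathlib

/-!
Entire functions which are meromorphic at infinity are polynomials.
-/

namespace Pool.Agent.Q162.EC

open Filter Topology

/-- A function which is meromorphic at infinity has polynomial growth. -/
theorem growth (f : ℂ → ℂ) (h : MeromorphicAt (fun t => f t⁻¹) 0) :
    ∃ (m : ℕ) (C R : ℝ), 0 < R ∧ ∀ z : ℂ, R < ‖z‖ → ‖f z‖ ≤ C * ‖z‖ ^ m := by
  obtain ⟨m, hm⟩ := h
  have h1 : ContinuousAt (fun z : ℂ => (z - 0) ^ m • f z⁻¹) 0 := hm.continuousAt
  obtain ⟨C, hC⟩ := h1.norm.isBoundedUnder_le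
  rw [eventually_map] at hC
  obtain ⟨ε, hε, hball⟩ := Metric.eventually_nhds_iff.1 hC
  refine ⟨m, C, ε⁻¹, inv_pos.2 hε, fun z hz => ?_⟩
  have hz0 : 0 < ‖z‖ := lt_trans (inv_pos.2 hε) hz
  have h2 : dist z⁻¹ 0 < ε := by
    rw [dist_zero_right, norm_inv]
    exact inv_lt_of_inv_lt₀ hε hz
  have h3 := hball h2
  rw [sub_zero, inv_inv, smul_eq_mul, norm_mul, norm_pow, norm_inv] at h3
  have h4 : ‖f z‖ = ‖z‖ ^ m * (‖z‖⁻¹ ^ m * ‖f z‖) := by
    rw [← mul_assoc, ← mul_pow, mul_inv_cancel₀ hz0.ne', one_pow, one_mul]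
  rw [h4, mul_comm C]
  exact mul_le_mul_of_nonneg_left h3 (by positivity)

/-- Entire functions which are meromorphic at infinity are polynomials. -/
theorem poly_of_mero (f : ℂ → ℂ) (hf : Differentiable ℂ f)
    (h : MeromorphicAt (fun t => f t⁻¹) 0) : ∃ p : Polynomial ℂ, ∀ z, f z = p.eval z := by
  obtain ⟨m, C, R, hR, hb⟩ := growth f h
  have hder : ∀ n, m < n → iteratedDeriv n f 0 = 0 := by
    intro n hn
    rw [← norm_le_zero_iff]
    have h1 : ∀ r : ℝ, max R 1 < r → ‖iteratedDeriv n f 0‖ ≤ (n.factorial * C) / r := by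
      intro r hr
      have hr1 : 1 < r := lt_of_le_of_lt (le_max_right _ _) hr
      have hrR : R < r := lt_of_le_of_lt (le_max_left _ _) hr
      have hr0 : 0 < r := by linarith
      have hC : 0 ≤ C := by
        have h3 := hb (r : ℂ) (by rw [Complex.norm_real, Real.norm_of_nonneg hr0.le]; exact hrR)
        rw [Complex.norm_real, Real.norm_of_nonneg hr0.le] at h3
        by_contra hc
        have : C * r ^ m < 0 := mul_neg_of_neg_of_pos (not_le.1 hc) (by positivity)
        linarith [norm_nonneg (f (r : ℂ))]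
      have h2 := Complex.norm_iteratedDeriv_le_of_forall_mem_sphere_norm_le (n := n) (c := 0)
        (C := C * r ^ m) hr0 hf.diffContOnCl (fun z hz => by
          have hz' : ‖z‖ = r := by simpa using hz
          have := hb z (by rw [hz']; exact hrR)
          rwa [hz'] at this)
      refine h2.trans ?_
      rw [div_le_div_iff₀ (by positivity) hr0]
      have h4 : r ^ m * r ≤ r ^ n := by
        rw [← pow_succ]
        exact pow_le_pow_right₀ hr1.le hn
      calc (n.factorial : ℝ) * (C * r ^ m) * r = (n.factorial * C) * (r ^ m * r) := by ring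
        _ ≤ (n.factorial * C) * r ^ n := mul_le_mul_of_nonneg_left h4 (by positivity)
    have h5 : Tendsto (fun r : ℝ => (n.factorial * C) / r) atTop (𝓝 0) :=
      tendsto_const_nhds.div_atTop tendsto_id
    exact ge_of_tendsto h5 ((eventually_gt_atTop (max R 1)).mono fun r hr => h1 r hr)
  refine ⟨∑ n ∈ Finset.range (m + 1),
    Polynomial.C ((n.factorial : ℂ)⁻¹ * iteratedDeriv n f 0) * Polynomial.X ^ n, fun z => ?_⟩
  have h6 := Complex.taylorSeries_eq_of_entire' (f := f) 0 z hf
  rw [← h6, tsum_eq_sum (s := Finset.range (m + 1)), Polynomial.eval_finsetSum]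
  · refine Finset.sum_congr rfl fun n _ => ?_
    simp
  · intro n hn
    rw [Finset.mem_range, not_lt] at hn
    rw [hder n (by omega)]
    simp

end Pool.Agent.Q162.EC
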