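import Pool.Agent.Q103.EC.Stm3
import Pool.Agent.Q41.GT.Elem
import Pool.Agent.Q162.EC.Ent

/-!
Project EC of helper103: (C12) the moduli spaces are Brody hyperbolic.
-/

namespace Pool.Agent.Q162.EC

open Finset Polynomial
open Pool.Agent.Q41.GT
open Metric Topology Filter

theorem tb_X : IsTranscendenceBasis ℂ (fun _ : Fin 1 => (RatFunc.X : RatFunc ℂ)) := by
  have : Algebra.IsAlgebraic ℂ[X] (RatFunc ℂ) :=
    (IsFractionRing.comap_isAlgebraic_iff (A := ℂ[X]) (K := RatFunc ℂ) (C := RatFunc ℂ)).2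
      inferInstance
  have h := (IsTranscendenceBasis.polynomial (Fin 1) ℂ).algebraMap_comp (A := RatFunc ℂ)
  have e : (algebraMap ℂ[X] (RatFunc ℂ)) ∘ (fun _ : Fin 1 => (X : ℂ[X])) =
      fun _ : Fin 1 => (RatFunc.X : RatFunc ℂ) := by
    funext i
    exact RatFunc.algebraMap_X
  rwa [e] at h

theorem adj_X : IntermediateField.adjoin ℂ
    (Set.range fun _ : Fin 1 => (RatFunc.X : RatFunc ℂ)) = ⊤ := by
  rw [Set.range_const]
  exact RatFunc.adjoin_X

/-- the field is algebraic over each field which contains a nonconstant function -/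
theorem alg_of_ne (E : IntermediateField ℂ (RatFunc ℂ)) (f : ℂ[X]) (hf : f.natDegree ≠ 0)
    (h : algebraMap ℂ[X] (RatFunc ℂ) f ∈ E) : Algebra.IsAlgebraic E (RatFunc ℂ) := by
  have hE : E ≠ ⊥ := by
    rintro rfl
    rw [IntermediateField.mem_bot] at h
    obtain ⟨c, hc⟩ := h
    apply hf
    have h1 : algebraMap ℂ[X] (RatFunc ℂ) (C c) = algebraMap ℂ[X] (RatFunc ℂ) f := by
      rw [← hc]
      rfl
    rw [← (RatFunc.algebraMap_injective ℂ) h1, natDegree_C]
  have h1 := RatFunc.IntermediateField.isAlgebraic_X hE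
  have h2 : Algebra.IsAlgebraic E (IntermediateField.adjoin E {(RatFunc.X : RatFunc ℂ)}) :=
    IntermediateField.isAlgebraic_adjoin_simple (isAlgebraic_iff_isIntegral.mp h1)
  exact (RatFunc.IntermediateField.adjoinXEquiv E).isAlgebraic

/-- (C12) -/
theorem brd (brl : Pool.Agent.Q103.EC.S_brl) (vdn : Pool.Agent.Q103.EC.S_vdn) (gonl : S_gonl) :
    Pool.Agent.Q103.EC.S_brd := by
  intro d hd
  obtain ⟨N1, hN1⟩ := brl d hd
  obtain ⟨B, hB⟩ := gonl d 1 hd
  refine ⟨max N1 (B + 1), ?_⟩
  intro n hn F hF hV s t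
  have hn1 : N1 ≤ n := le_trans (le_max_left _ _) hn
  have hn2 : B + 1 ≤ n := le_trans (le_max_right _ _) hn
  have hd1 : 1 ≤ d := by omega
  have hpoly : ∀ i, ∃ f : ℂ[X], ∀ t, F t i = f.eval t := by
    intro i
    refine poly_of_mero (fun t => F t i) (hF i) ?_
    refine hN1 n hn1 (fun t => F t⁻¹) (fun i => ?_) (fun t _ => hV _) i
    intro t ht
    have ht0 : t ≠ 0 := fun h => ht.2 h
    have h1 : DifferentiableAt ℂ (fun u => F u i) t⁻¹ := hF i t⁻¹
    exact (h1.comp t (differentiableAt_inv ht0)).differentiableWithinAt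
  choose f hf using hpoly
  obtain ⟨H, Q, hHQ⟩ := vdn ℂ d n hd (by omega)
  have hval : ∀ (G : MvPolynomial (Sg d) ℂ) (t : ℂ),
      (MvPolynomial.aeval f G).eval t = MvPolynomial.eval (F t) G := by
    intro G t
    have h1 : (F t) = fun i => (f i).eval t := funext fun i => hf i t
    rw [h1]
    have h2 : (Polynomial.aeval t).comp (MvPolynomial.aeval f) =
        (MvPolynomial.aeval fun i => (f i).eval t : MvPolynomial (Sg d) ℂ →ₐ[ℂ] ℂ) := by
      apply MvPolynomial.algHom_ext
      intro i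
      rw [AlgHom.comp_apply, MvPolynomial.aeval_X, MvPolynomial.aeval_X,
        Polynomial.coe_aeval_eq_eval]
    have h3 := DFunLike.congr_fun h2 G
    rw [AlgHom.comp_apply, Polynomial.coe_aeval_eq_eval] at h3
    exact h3.trans (by rw [MvPolynomial.aeval_eq_eval])
  obtain ⟨y, hydef⟩ : ∃ y : Sg d → RatFunc ℂ, y = fun i => algebraMap ℂ[X] (RatFunc ℂ) (f i) :=
    ⟨_, rfl⟩
  have hyG : ∀ G : MvPolynomial (Sg d) ℂ, MvPolynomial.aeval y G =
      algebraMap ℂ[X] (RatFunc ℂ) (MvPolynomial.aeval f G) := by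
    intro G
    rw [hydef]
    exact (MvPolynomial.aeval_algebraMap_apply (RatFunc ℂ) f G)
  have hFV : ∀ t, MvPolynomial.eval (F t) H ≠ 0 ∧ MvPolynomial.eval (F t) Q = 0 := by
    intro t
    have h1 := (hHQ ℂ (F t)).1 (hV t)
    rwa [MvPolynomial.aeval_eq_eval] at h1
  have hyV : y ∈ V d n (RatFunc ℂ) := by
    rw [hHQ]
    constructor
    · intro h0
      rw [hyG, map_eq_zero_iff _ (RatFunc.algebraMap_injective ℂ)] at h0
      have h1 := hval H 0
      rw [h0, eval_zero] at h1
      exact (hFV 0).1 h1.symm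
    · rw [hyG, map_eq_zero_iff _ (RatFunc.algebraMap_injective ℂ)]
      apply Polynomial.funext
      intro t
      rw [hval, (hFV t).2, eval_zero]
  have hconst : ∀ i, (f i).natDegree = 0 := by
    by_contra hc
    push Not at hc
    obtain ⟨i, hi⟩ := hc
    have hmem : ∀ j, y j ∈ IntermediateField.adjoin ℂ (rats (num d y) (den d y)) := by
      rintro (j | j)
      · apply IntermediateField.subset_adjoin
        refine ⟨num d y, den d y, Or.inl rfl, Or.inr rfl, j, d, ?_⟩
        rw [den_coeff_top y hd1, num_coeff y j j.2, div_one]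
      · apply IntermediateField.subset_adjoin
        refine ⟨den d y, den d y, Or.inr rfl, Or.inr rfl, j + 1, d, ?_⟩
        rw [den_coeff_top y hd1, den_coeff y j j.2, div_one]
    have halg := alg_of_ne _ (f i) hi (by have := hmem i; rwa [hydef] at this)
    have hfr : Module.finrank (IntermediateField.adjoin ℂ
        (Set.range fun _ : Fin 1 => (RatFunc.X : RatFunc ℂ))) (RatFunc ℂ) = 1 := by
      rw [adj_X]
      exact IntermediateField.finrank_top
    have hfin : FiniteDimensional (IntermediateField.adjoin ℂ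
        (Set.range fun _ : Fin 1 => (RatFunc.X : RatFunc ℂ))) (RatFunc ℂ) :=
      Module.finite_of_finrank_pos (by rw [hfr]; exact one_pos)
    have h5 := hB ℂ (RatFunc ℂ) 1 le_rfl _ tb_X hfin hfr.le (num d y) (den d y) hyV.1
      (max_natDegree y hd1) (prep_points y hd1 (by omega) hyV) (by rw [hydef] at *; exact halg)
    have h6 := le_trans (many_points y (by omega) hyV) h5
    have h7 : n ≤ B := by exact_mod_cast h6
    omega
  funext i
  rw [hf, hf, eq_C_of_natDegree_eq_zero (hconst i), eval_C, eval_C]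

end Pool.Agent.Q162.EC
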