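import Pool.Agent.Q103.EC.Stm3
import Pool.Agent.Y221.PD.Main

/-!
Project EC of helper103: (C11) the moduli spaces are Borel hyperbolic.
-/

namespace Pool.Agent.Q162.EC

open Finset Polynomial
open Pool.Agent.Q41.GT
open Pool.Agent.Q41.SU (Stab)
open Pool.Agent.W277.UH (ratP1)
open Pool.Agent.Y221.AP
open Pool.Agent.W603.BP Metric Topology Filter

/-- values of polynomials at the point of the field of meromorphic functions -/
theorem aeval_cl {σ : Type} [Fintype σ] {f : σ → ℂ → ℂ} (hf : ∀ i, MeromorphicOn (f i) Om)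
    (G : MvPolynomial σ ℂ) :
    MvPolynomial.aeval (fun i => cl (f i) (hf i)) G =
      cl (fun t => MvPolynomial.eval (fun i => f i t) G) (mero_eval hf G) := by
  let u : σ → MerS := fun i => ⟨f i, hf i⟩
  have h1 : ((Ideal.Quotient.mkₐ ℂ MJ).comp (MvPolynomial.aeval u)) =
      MvPolynomial.aeval (fun i => cl (f i) (hf i)) := by
    apply MvPolynomial.algHom_ext
    intro i
    rw [AlgHom.comp_apply, MvPolynomial.aeval_X, MvPolynomial.aeval_X]
    rfl
  rw [← h1, AlgHom.comp_apply]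
  change Ideal.Quotient.mk MJ _ = Ideal.Quotient.mk MJ _
  congr 1
  apply Subtype.ext
  funext t
  have h2 : (evS t).comp (MvPolynomial.aeval u) = MvPolynomial.aeval (fun i => f i t) := by
    apply MvPolynomial.algHom_ext
    intro i
    rw [AlgHom.comp_apply, MvPolynomial.aeval_X, MvPolynomial.aeval_X]
    rfl
  have h3 := DFunLike.congr_fun h2 G
  rw [AlgHom.comp_apply] at h3
  exact h3.trans (by rw [MvPolynomial.aeval_eq_eval])

/-- (C11) -/
theorem brl (mer : Pool.Agent.Q103.EC.S_mer) (vdn : Pool.Agent.Q103.EC.S_vdn)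
    (vaf : Pool.Agent.Q103.EC.S_vaf) : Pool.Agent.Q103.EC.S_brl := by
  intro d hd
  obtain ⟨B, hB⟩ := mer d hd
  refine ⟨max (3 * d + 7) B, ?_⟩
  intro n hn F hF hV i
  have hn1 : 3 * d + 7 ≤ n := le_trans (le_max_left _ _) hn
  have hn2 : B ≤ n := le_trans (le_max_right _ _) hn
  obtain ⟨H, Q, hHQ⟩ := vdn ℂ d n hd (by omega)
  have disc : ball (0 : ℂ) 1 \ {0} = PB 1 := by
    ext w
    rw [Set.mem_sdiff, mem_ball_zero_iff, Set.mem_singleton_iff]
    exact And.comm
  rw [disc] at hF hV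
  have hPB : IsOpen (PB 1) := by
    rw [← disc]
    exact isOpen_ball.sdiff isClosed_singleton
  have hFan : ∀ i, AnalyticOnNhd ℂ (fun w => F w i) (PB 1) := by
    intro i w hw
    exact (hF i).analyticAt (hPB.mem_nhds hw)
  have hinvPB : ∀ {z : ℂ}, z ∈ Om → z⁻¹ ∈ PB 1 := by
    intro z hz
    exact inv_mem_PB one_pos (by rwa [inv_one])
  have hPBinv : ∀ {w : ℂ}, w ∈ PB 1 → w⁻¹ ∈ Om := by
    intro w hw
    have := inv_mem_Ext hw
    rwa [inv_one] at this
  have hOm0 : ∀ {z : ℂ}, z ∈ Om → z ≠ 0 := by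
    intro z hz h0
    have h1 : (1 : ℝ) < ‖z‖ := hz
    rw [h0, norm_zero] at h1
    linarith
  obtain ⟨f', hf'⟩ : ∃ f' : Sg d → ℂ → ℂ, ∀ i z, f' i z = F z⁻¹ i := ⟨_, fun _ _ => rfl⟩
  have hf'an : ∀ i, ∀ z ∈ Om, AnalyticAt ℂ (f' i) z := by
    intro i z hz
    have h1 : f' i = (fun w => F w i) ∘ fun z => z⁻¹ := by
      funext v
      exact hf' i v
    rw [h1]
    exact AnalyticAt.comp (hFan i _ (hinvPB hz)) (analyticAt_inv (hOm0 hz))
  have hmer : ∀ i, MeromorphicOn (f' i) Om := fun i z hz => (hf'an i z hz).meromorphicAt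
  obtain ⟨z, hzdef⟩ : ∃ z : Sg d → MK, z = fun i => cl (f' i) (hmer i) := ⟨_, rfl⟩
  have hcont : ∀ G : MvPolynomial (Sg d) ℂ, ∀ t ∈ Om,
      ContinuousAt (fun t => MvPolynomial.eval (fun i => f' i t) G) t := fun G t ht =>
    (MvPolynomial.continuous_eval G).continuousAt.comp
      (continuousAt_pi.2 fun i => (hf'an i t ht).continuousAt)
  have hvz : ∀ G, MvPolynomial.aeval z G = 0 ↔
      ∀ t ∈ Om, MvPolynomial.eval (fun i => f' i t) G = 0 := by
    intro G
    rw [hzdef, aeval_cl hmer G, cl_eq_zero]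
    constructor
    · intro h t ht
      exact eq_of_cod (g := fun _ => 0) h ht (hcont G t ht) continuousAt_const
    · intro h
      filter_upwards [cod_Om] with t ht
      exact h t ht
  have hevf : ∀ (G : MvPolynomial (Sg d) ℂ) (t : ℂ),
      MvPolynomial.eval (fun i => f' i t) G = MvPolynomial.eval (F t⁻¹) G := by
    intro G t
    have h1 : (fun i => f' i t) = F t⁻¹ := by
      funext i
      rw [hf']
    rw [h1]
  have hFV : ∀ t ∈ Om, MvPolynomial.eval (F t⁻¹) H ≠ 0 ∧ MvPolynomial.eval (F t⁻¹) Q = 0 := by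
    intro t ht
    have h1 := (hHQ ℂ (F t⁻¹)).1 (hV _ (hinvPB ht))
    rwa [MvPolynomial.aeval_eq_eval] at h1
  have hzV : z ∈ V d n MK := by
    rw [hHQ MK z]
    constructor
    · intro h0
      have h1 := (hvz H).1 h0 2 two_mem
      rw [hevf] at h1
      exact (hFV 2 two_mem).1 h1
    · rw [hvz]
      intro t ht
      rw [hevf]
      exact (hFV t ht).2
  obtain ⟨p, q, P, hp, hq, hpq, hst, hc, halg⟩ := vaf ℂ MK d n hd hn1 z hzV
  have hle : IntermediateField.adjoin ℂ (crs P) ≤ MI := by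
    rw [IntermediateField.adjoin_le_iff]
    intro c hcc
    exact mem_MI.2 (hB p q hp hq hpq P hst (by rw [hc]; exact hn2) c hcc)
  have hMI : MInf (z i) := by
    apply minf_of_alg
    obtain ⟨g, hg, hgx⟩ := halg i
    refine ⟨g.map (IntermediateField.inclusion hle).toRingHom, ?_, ?_⟩
    · rw [Ne, Polynomial.map_eq_zero]
      exact hg
    · rw [← hgx, Polynomial.aeval_def, Polynomial.eval₂_map, Polynomial.aeval_def]
      rfl
  have h0 : MeromorphicAt (fun w => Fn (z i) w⁻¹) 0 := hMI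
  refine h0.congr ?_
  filter_upwards [hMI.reg, PB_mem one_pos] with w hw1 hw2
  have hwO := hPBinv hw2
  have h1 : cl (f' i) (hmer i) = z i := by rw [hzdef]
  have h2 : cl (Fn (z i)) (Fn_mero (z i)) = cl (f' i) (hmer i) := by rw [cl_Fn, h1]
  rw [cl_eq] at h2
  have h3 := eq_of_cod (f := Fn (z i)) (g := f' i) h2 hwO hw1.continuousAt
    (hf'an i _ hwO).continuousAt
  rw [hf', inv_inv] at h3
  exact h3

end Pool.Agent.Q162.EC
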