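import Pool.Agent.Q103.EC.Stm3
import Pool.Agent.Q162.GT.Gnp
import Pool.Agent.Q41.GT.Elem

/-!
Project EC of helper103: (C10) the maps of the moduli space over a field.
-/

namespace Pool.Agent.Q162.EC

open Finset Polynomial
open Pool.Agent.Q41.GT
open Pool.Agent.Q41.SU (Stab)
open Pool.Agent.W277.UH (ratP1 ratP1_some ratP1_some0 ratP1_none0)
open Pool.Agent.Q162.GT (num_map den_map)

theorem rat_map {K L : Type*} [Field K] [Field L] (φ : K →+* L) (p q : Polynomial K) (d : ℕ)
    (z : Option K) : ratP1 (p.map φ) (q.map φ) d (z.map φ) = (ratP1 p q d z).map φ := by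
  rcases z with _ | x
  · by_cases h : q.coeff d = 0
    · rw [ratP1_none0 p q d h]
      exact ratP1_none0 _ _ d (by rw [coeff_map, h, map_zero])
    · rw [Pool.Agent.W277.UH.ratP1_none p q d h]
      have h1 : (q.map φ).coeff d ≠ 0 := by
        rw [coeff_map]
        exact (map_ne_zero φ).mpr h
      have h2 := Pool.Agent.W277.UH.ratP1_none (p.map φ) (q.map φ) d h1
      rw [coeff_map, coeff_map, ← map_div₀] at h2
      exact h2
  · by_cases h : q.eval x = 0
    · rw [ratP1_some0 p q d x h]
      exact ratP1_some0 _ _ d _ (by rw [eval_map_apply, h, map_zero])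
    · rw [ratP1_some p q d x h]
      have h1 : (q.map φ).eval (φ x) ≠ 0 := by
        rw [eval_map_apply]
        exact (map_ne_zero φ).mpr h
      have h2 := ratP1_some (p.map φ) (q.map φ) d (φ x) h1
      rw [eval_map_apply, eval_map_apply, ← map_div₀] at h2
      exact h2

theorem iter_map {K L : Type*} [Field K] [Field L] (φ : K →+* L) (p q : Polynomial K) (d m : ℕ)
    (z : Option K) :
    (ratP1 (p.map φ) (q.map φ) d)^[m] (z.map φ) = ((ratP1 p q d)^[m] z).map φ := by
  induction m generalizing z with
  | zero => rfl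
  | succ m ih =>
    rw [Function.iterate_succ_apply, Function.iterate_succ_apply, rat_map, ih]

/-- Points of the moduli space and field extensions. -/
theorem V_map {K L : Type*} [Field K] [Field L] (φ : K →+* L) (d n : ℕ) (x : Sg d → K) :
    (fun i => φ (x i)) ∈ V d n L ↔ x ∈ V d n K := by
  unfold V
  rw [Set.mem_ofPred_eq, Set.mem_ofPred_eq, ← num_map, ← den_map, isCoprime_map]
  have h : Function.minimalPeriod (ratP1 ((num d x).map φ) ((den d x).map φ) d) none =
      Function.minimalPeriod (ratP1 (num d x) (den d x) d) none := by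
    rw [Function.minimalPeriod_eq_minimalPeriod_iff]
    intro m
    have h1 := iter_map φ (num d x) (den d x) d m none
    constructor
    · intro h2
      have h3 : (ratP1 ((num d x).map φ) ((den d x).map φ) d)^[m] none = none := h2
      change (ratP1 (num d x) (den d x) d)^[m] none = none
      rw [Option.map_none, h3] at h1
      exact (Option.map_eq_none_iff.1 h1.symm)
    · intro h2
      have h3 : (ratP1 (num d x) (den d x) d)^[m] none = none := h2
      change (ratP1 ((num d x).map φ) ((den d x).map φ) d)^[m] none = none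
      rw [Option.map_none, h3, Option.map_none] at h1
      exact h1
  rw [h]

/-- Cross ratios and field extensions. -/
theorem crs_map {K L : Type} [Field K] [Field L] [DecidableEq L] (φ : K →+* L) (P : Finset K)
    (c : K) (hc : c ∈ crs P) : φ c ∈ crs (P.image φ) := by
  obtain ⟨x0, h0, x1, h1, x2, h2, x, hx, n1, n2, n3, n4, n5, rfl⟩ := hc
  have hi := φ.injective
  refine ⟨φ x0, Finset.mem_image_of_mem _ h0, φ x1, Finset.mem_image_of_mem _ h1, φ x2,
    Finset.mem_image_of_mem _ h2, φ x, Finset.mem_image_of_mem _ hx, hi.ne n1, hi.ne n2, hi.ne n3,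
    hi.ne n4, hi.ne n5, ?_⟩
  simp

/-- Algebraic elements and homomorphisms. -/
theorem alg_map {k K L : Type*} [Field k] [Field K] [Field L] [Algebra k K] [Algebra k L]
    (φ : K →ₐ[k] L) (S : Set K) (T : Set L) (h : ∀ s ∈ S, φ s ∈ T) (x : K)
    (hx : IsAlgebraic (IntermediateField.adjoin k S) x) :
    IsAlgebraic (IntermediateField.adjoin k T) (φ x) := by
  have hle : ∀ s : IntermediateField.adjoin k S, φ s ∈ IntermediateField.adjoin k T := by
    intro s
    have h1 : (IntermediateField.adjoin k S).map φ ≤ IntermediateField.adjoin k T := by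
      rw [IntermediateField.adjoin_map, IntermediateField.adjoin_le_iff]
      rintro _ ⟨s, hs, rfl⟩
      exact IntermediateField.subset_adjoin _ _ (h s hs)
    exact h1 ⟨s, s.2, rfl⟩
  let ψ : IntermediateField.adjoin k S →+* IntermediateField.adjoin k T :=
    { toFun := fun s => ⟨φ s, hle s⟩
      map_one' := by ext; simp
      map_zero' := by ext; simp
      map_mul' := fun a b => by ext; simp
      map_add' := fun a b => by ext; simp }
  obtain ⟨p, hp, hpx⟩ := hx
  refine ⟨p.map ψ, ?_, ?_⟩
  · rw [Ne, Polynomial.map_eq_zero]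
    exact hp
  · rw [aeval_def] at hpx ⊢
    rw [eval₂_map]
    have h2 := congrArg φ hpx
    rw [map_zero] at h2
    rw [← h2]
    change _ = (φ : K →+* L) (eval₂ _ x p)
    rw [hom_eval₂]
    rfl

/-- (C10) -/
theorem vaf (aff : S_aff) : Pool.Agent.Q103.EC.S_vaf := by
  intro k L _ _ _ _ d n hd hn y hy
  classical
  have hd1 : 1 ≤ d := by omega
  let L₀ := IntermediateField.adjoin k (Set.range y)
  let y₀ : Sg d → L₀ := fun i => ⟨y i, IntermediateField.subset_adjoin _ _ ⟨i, rfl⟩⟩
  have hy₀ : y₀ ∈ V d n L₀ := by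
    rw [← V_map (algebraMap L₀ L) d n y₀]
    exact hy
  have htop : IntermediateField.adjoin k (Set.range y₀) = ⊤ := by
    apply IntermediateField.lift_injective L₀
    rw [IntermediateField.lift_adjoin, IntermediateField.lift_top]
    congr 1
    ext z
    constructor
    · rintro ⟨_, ⟨i, rfl⟩, rfl⟩
      exact ⟨i, rfl⟩
    · rintro ⟨i, rfl⟩
      exact ⟨_, ⟨i, rfl⟩, rfl⟩
  set f : Option L₀ → Option L₀ := ratP1 (num d y₀) (den d y₀) d with hf
  have hper : Function.minimalPeriod f none = n := hy₀.2
  let P : Finset (Option L₀) := (Finset.range n).image fun i => f^[i] none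
  have hn0 : 0 < n := by omega
  have hmem : ∀ m, f^[m] none ∈ P := by
    intro m
    refine Finset.mem_image.2 ⟨m % n, Finset.mem_range.2 (Nat.mod_lt _ hn0), ?_⟩
    rw [← hper]
    exact Function.iterate_mod_minimalPeriod_eq
  have hst : ∀ z ∈ P, f z ∈ P := by
    intro z hz
    obtain ⟨i, -, rfl⟩ := Finset.mem_image.1 hz
    have := hmem (i + 1)
    rwa [Function.iterate_succ_apply'] at this
  have hcard : P.card = n := by
    rw [Finset.card_image_of_injOn, Finset.card_range]
    intro i hi j hj hij
    rw [Finset.coe_range, Set.mem_Iio] at hi hj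
    exact Function.iterate_injOn_Iio_minimalPeriod (f := f) (x := none)
      (by rw [Set.mem_Iio, hper]; exact hi) (by rw [Set.mem_Iio, hper]; exact hj) hij
  have h0 : f none = some 0 := ratP1_none y₀ hd1
  have h1 : f (some 0) = some 1 := ratP1_zero y₀ hd1 hy₀.1
  obtain ⟨p', q', P', hp', hq', hpq, hstab, hc, halg⟩ := aff k L₀ d hd (num d y₀) (den d y₀)
    hy₀.1 (max_natDegree y₀ hd1) P hst (hmem 0)
    (by have := hmem 1; rwa [Function.iterate_one, h0] at this)
    (by
      have := hmem 2
      rwa [Function.iterate_succ_apply, Function.iterate_one, h0, h1] at this)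
    (by rw [hcard]; exact hn) (isAlgebraic_of_eq_top (adjoin_rats y₀ hd1 htop))
  have hinj : Function.Injective (algebraMap L₀ L) := (algebraMap L₀ L).injective
  refine ⟨p'.map (algebraMap L₀ L), q'.map (algebraMap L₀ L), P'.image (algebraMap L₀ L), ?_, ?_,
    ?_, ?_, ?_, ?_⟩
  · rw [natDegree_map]; exact hp'
  · rw [natDegree_map]; exact hq'
  · rw [isCoprime_map]; exact hpq
  · intro z hz
    obtain ⟨z', hz', rfl⟩ := Finset.mem_image.1 hz
    rw [eval_map_apply, eval_map_apply, ← map_div₀]
    exact ⟨(_root_.map_ne_zero _).2 (hstab z' hz').1,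
      Finset.mem_image_of_mem _ (hstab z' hz').2⟩
  · rw [Finset.card_image_of_injective _ hinj, hc, hcard]
  · intro i
    have h2 : y i = L₀.val (y₀ i) := rfl
    rw [h2]
    exact alg_map L₀.val (crs P') _ (fun s hs => crs_map (algebraMap L₀ L) P' s hs) _
      (halg.isAlgebraic _)

end Pool.Agent.Q162.EC
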