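import Pool.Agent.Q103.EC.Stm3
import Pool.Agent.Q162.GT.Gnp

/-!
Project EC of helper103: (C9) equations of the moduli space.
-/

namespace Pool.Agent.Q162.EC

open Finset Polynomial
open Pool.Agent.Q41.GT
open Pool.Agent.Q162.GT (Rs Bm mem_V)

/-- (C9) -/
theorem vdn (hom : S_hom) : Pool.Agent.Q103.EC.S_vdn := by
  intro k _ d n hd hn
  refine ⟨Rs k d * ∏ m ∈ Finset.Ico 1 n, Bm k d m, Bm k d n, ?_⟩
  intro L _ _ y
  rw [mem_V hom (k := k) d n (by omega) hn, map_mul, map_prod, mul_ne_zero_iff,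
    Finset.prod_ne_zero_iff]
  constructor
  · rintro ⟨h1, h2, h3⟩
    exact ⟨⟨h1, fun m hm => h3 m (Finset.mem_Ico.1 hm).1 (Finset.mem_Ico.1 hm).2⟩, h2⟩
  · rintro ⟨⟨h1, h3⟩, h2⟩
    exact ⟨h1, h2, fun m hm1 hm2 => h3 m (Finset.mem_Ico.2 ⟨hm1, hm2⟩)⟩

end Pool.Agent.Q162.EC
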